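import Pool.Agent.Results.MP_b58c63_nt.EveryNumberInWindows
import Pool.Agent.V11001.KM.NatSet

/-!
# Goldbach with a prime in `(√N, 4 √N)` and a rough second summand, for all even numbers near the powers of almost every
real number

Let `ν n / log n → ∞`, for example `ν n = n`, `0 < u < 3 / 8` and `s > max (1 / 2) (4 u - 1 / 2)`. There is `δ > 0` such
that for almost every real `x > 1` and all `θ < 1 - s`, for ALL even `N` but finitely many with
`|N - x ^ (ν n)| ≤ x ^ (θ ν n)` for some `n` there are at least `δ 𝔖(N) √N / (log N) ^ 2` primes `p` in `(√N, 4 √N)` such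
that all prime factors of `N - p` are larger than `N ^ u`. For `u = 1 / 3` (`s > 5 / 6`) the number `N - p` is a prime or a
product of two primes.
-/

set_option autoImplicit false

open Finset

namespace Pool.Agent.Results.MP_b58c63_nt.EvenNumbersNearPowers

open Pool.Agent.V11001.KM
open EveryNumberInWindows (sing shortCount Exc count)

/-- **Theorem.** Let `0 < u < 3 / 8` and `s > max (1 / 2) (4 u - 1 / 2)`. There is `δ > 0` such that for all `ν` with
`ν n / log n → ∞` and all countable sets `B` of real numbers: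
(1) For `θ < 1` there is a set `E` of Hausdorff dimension at most `s / (1 - θ)` such that for each `x > 1` outside `E` and
each positive `β` in `B`, for all but finitely many of the even `N` with `|N - β x ^ (ν n)| ≤ x ^ (θ ν n)` for some `n`
there are at least `δ 𝔖(N) √N / (log N) ^ 2` primes `p` with `√N < p < 4 √N` such that all prime factors of `N - p` are
larger than `N ^ u`.
(2) For almost every real `x > 1` this holds for all `θ < 1 - s`. -/
theorem result : ∀ u s : ℝ, 0 < u → u < 3 / 8 → max (1 / 2) (4 * u - 1 / 2) < s → ∃ δ : ℝ, 0 < δ ∧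
    ∀ ν : ℕ → ℝ, Fast ν → ∀ B : Set ℝ, B.Countable →
    (∀ θ : ℝ, θ < 1 → ∃ E : Set ℝ, dimH E ≤ ENNReal.ofReal (s / (1 - θ)) ∧
      ∀ x : ℝ, 1 < x → x ∉ E → ∀ β ∈ B, 0 < β →
        {N : ℕ | Even N ∧ Near ν θ β x N ∧
          (shortCount u N : ℝ) < δ * sing N * (Real.sqrt N / Real.log N ^ 2)}.Finite) ∧
    (∀ᵐ x : ℝ, 1 < x → ∀ θ : ℝ, θ < 1 - s → ∀ β ∈ B, 0 < β →
      {N : ℕ | Even N ∧ Near ν θ β x N ∧
        (shortCount u N : ℝ) < δ * sing N * (Real.sqrt N / Real.log N ^ 2)}.Finite) := by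
  intro u s hu hu1 hs
  obtain ⟨δ, hδ, hcount⟩ := count u s hu hu1 hs
  have hs0 : 0 ≤ s := by
    have := le_max_left (1 / 2 : ℝ) (4 * u - 1 / 2)
    linarith
  refine ⟨δ, hδ, fun ν hν B hB => ⟨fun θ hθ => ?_, ?_⟩⟩
  · obtain ⟨E, h1, h2⟩ := family (fun m : ℕ => (m : ℝ)) hν hs0 hθ B hB
      (J := Unit) (fun _ => Exc u δ) (fun _ ε hε => count_of_nat _ hs0 hε (hcount ε hε))
    refine ⟨E, h1, fun x hx hxE β hβ hβ0 => (h2 x hx hxE β hβ hβ0 ()).subset ?_⟩
    rintro N ⟨g1, g2, g3⟩
    exact ⟨⟨g1, g3⟩, g2⟩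
  · filter_upwards [ae_family (fun m : ℕ => (m : ℝ)) hν hs0 B hB
      (J := Unit) (fun _ => Exc u δ) (fun _ ε hε => count_of_nat _ hs0 hε (hcount ε hε))] with x hx hx1 θ hθ β hβ hβ0
    refine (hx hx1 θ hθ β hβ hβ0 ()).subset ?_
    rintro N ⟨g1, g2, g3⟩
    exact ⟨⟨g1, g3⟩, g2⟩

end Pool.Agent.Results.MP_b58c63_nt.EvenNumbersNearPowers
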