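import Pool.Agent.V11237.LP.Sgn
import Pool.Agent.V11237.LP.Window

set_option autoImplicit false

/-!
# The primes `p` between `√(2n)` and `4 √(2n)` with `2n - p` almost prime: their number and the law of
the next pairs

For every large `n`: the number of the primes `p` with `√(2n) < p < 4 √(2n)` for which `2n - p` has no
prime factor `≤ (2n) ^ (1 / r)`, and the Poisson law of the number of the `m` in `(p, p + T]` with `m`
and `2n - m` both free of prime factors `≤ (2n) ^ (1 / r)`.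
-/

namespace Pool.Agent.Results.MP_b58c63_nt.LawInTheInterval

open Finset
open Pool.Agent.V11237.LP

/-- Neither `m` nor `2 n - m` has a prime factor `p ≤ (2 n) ^ (1 / r)`. -/
def Good (n r m : ℕ) : Prop :=
  ∀ p : ℕ, p.Prime → (p : ℝ) ≤ ((2 * n : ℕ) : ℝ) ^ (1 / (r : ℝ)) → ¬ p ∣ m ∧ ¬ (p : ℤ) ∣ 2 * n - m

/-- The integers strictly between `√(2n)` and `4 √(2n)`. -/
noncomputable def I (n : ℕ) : Finset ℕ := Ioo ⌊√(2 * n : ℝ)⌋₊ ⌈4 * √(2 * n : ℝ)⌉₊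

open Classical in
/-- The good PRIMES `p` with `√(2n) < p < 4 √(2n)`. -/
noncomputable def P (n r : ℕ) : Finset ℕ := (I n).filter (fun p => p.Prime ∧ Good n r p)

open Classical in
/-- The number of the good `l` in `(m, m + T]`. -/
noncomputable def Next (n r T m : ℕ) : ℕ := ((Ioc m (m + T)).filter (fun l => Good n r l)).card

/-- The product over the primes `p ≤ (2 n) ^ (1 / r)` of `1 - 1 / p` if `p` divides `2 n` and of
`1 - 2 / p` otherwise. -/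
noncomputable def V (n r : ℕ) : ℝ :=
  ∏ p ∈ (Icc 1 ⌊((2 * n : ℕ) : ℝ) ^ (1 / (r : ℝ))⌋₊).filter Nat.Prime,
    (1 - (if p ∣ 2 * n then 1 else 2) / (p : ℝ))

/-- The product of `1 - 1 / p` over the primes `p ≤ (2 n) ^ (1 / r)`. -/
noncomputable def U (n r : ℕ) : ℝ :=
  ∏ p ∈ (Icc 1 ⌊((2 * n : ℕ) : ℝ) ^ (1 / (r : ℝ))⌋₊).filter Nat.Prime, (1 - 1 / (p : ℝ))

lemma good_eq (n r m : ℕ) : Sgn.Good (-1) ((2 * n : ℕ) : ℤ) (2 * n) r m ↔ Good n r m := by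
  unfold Sgn.Good Good
  refine forall_congr' fun p => forall_congr' fun _ => forall_congr' fun _ => ?_
  rw [show (-1 : ℤ) * m + ((2 * n : ℕ) : ℤ) = 2 * n - m by push_cast; ring]

lemma V_eq (n r : ℕ) : Sgn.V ((2 * n : ℕ) : ℤ) (2 * n) r = V n r := by
  unfold Sgn.V V
  simp only [Int.natCast_dvd_natCast]

/-- **The primes in the interval `(√(2n), 4√(2n))` with almost prime complement.** -/
theorem result (x₀ ε : ℝ) (hε : 0 < ε) (hε1 : ε ≤ 1) :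
    ∃ r₀ : ℕ, 2 ≤ r₀ ∧ ∀ r : ℕ, r₀ ≤ r → ∃ n₀ : ℕ, ∀ n : ℕ, n₀ ≤ n →
      (∀ m : ℕ, m ∈ I n ↔ √(2 * n : ℝ) < m ∧ (m : ℝ) < 4 * √(2 * n : ℝ)) ∧
      (∀ m : ℕ, m ≤ 2 * n → Good n r m → (2 * n - m).primeFactorsList.length ≤ r) ∧
      0 < V n r ∧
      |((P n r).card : ℝ) * Real.log (⌈4 * √(2 * n : ℝ)⌉₊ : ℝ) - (I n).card * (V n r / U n r)| ≤
          ε * ((I n).card * (V n r / U n r)) ∧
      ∀ T : ℕ, T * V n r ≤ x₀ → ∀ S : Finset ℕ,
        |(((P n r).filter (fun m => Next n r T m ∈ S)).card : ℝ) -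
          (P n r).card * ∑ j ∈ S, Real.exp (-(T * V n r)) * (T * V n r) ^ j / j.factorial| ≤
          ε * (P n r).card := by
  classical
  obtain ⟨r0, hr0, h0⟩ := Sgn.law 1 (1 / 2) (1 / 3) (1 / 2) one_pos (by norm_num) (by norm_num)
    (by norm_num) (by norm_num) x₀ ε hε hε1
  refine ⟨r0, hr0, ?_⟩
  intro r hr
  obtain ⟨N1, hN1⟩ := h0 r hr
  obtain ⟨N2, hN2⟩ := Window.few 1 r (hr0.trans hr)
  refine ⟨max (max N1 N2) 8, ?_⟩
  intro n hn
  have h1 : N1 ≤ 2 * n := by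
    have := (le_max_left N1 N2).trans ((le_max_left _ _).trans hn)
    omega
  have h2 : N2 ≤ 2 * n := by
    have := (le_max_right N1 N2).trans ((le_max_left _ _).trans hn)
    omega
  have h8 : 8 ≤ n := (le_max_right _ _).trans hn
  have h8r : (8 : ℝ) ≤ n := by exact_mod_cast h8
  obtain ⟨s, hs⟩ : ∃ s, s = √(2 * n : ℝ) := ⟨_, rfl⟩
  have hs0 : 0 ≤ s := by rw [hs]; exact Real.sqrt_nonneg _
  have hs4 : 4 ≤ s := by
    rw [hs]
    apply Real.le_sqrt_of_sq_le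
    linarith
  have hss : s * s = 2 * n := by
    rw [hs]
    exact Real.mul_self_sqrt (by positivity)
  have hI : ∀ m : ℕ, m ∈ I n ↔ √(2 * n : ℝ) < m ∧ (m : ℝ) < 4 * √(2 * n : ℝ) := by
    intro m
    unfold I
    rw [mem_Ioo, Nat.floor_lt (Real.sqrt_nonneg _), Nat.lt_ceil]
  have hfl : (⌊s⌋₊ : ℝ) ≤ s := Nat.floor_le hs0
  have hce : 4 * s ≤ (⌈4 * s⌉₊ : ℝ) := Nat.le_ceil _
  have hce2 : (⌈4 * s⌉₊ : ℝ) < 4 * s + 1 := Nat.ceil_lt_add_one (by linarith)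
  obtain ⟨u, hu⟩ : ∃ u, u = ⌊s⌋₊ := ⟨_, rfl⟩
  obtain ⟨X, hX⟩ : ∃ X, X = ⌈4 * s⌉₊ := ⟨_, rfl⟩
  rw [← hu] at hfl
  rw [← hX] at hce hce2
  have huX : u + 1 ≤ X := by
    have : (u : ℝ) + 1 ≤ X := by linarith
    exact_mod_cast this
  obtain ⟨Y, hY⟩ : ∃ Y, Y = X - u - 1 := ⟨_, rfl⟩
  have hYX : u + Y + 1 = X := by omega
  have hYR : (u : ℝ) + Y + 1 = X := by exact_mod_cast hYX
  have hIe : I n = Ioc u (u + Y) := by
    ext m
    unfold I
    rw [← hs, ← hu, ← hX, mem_Ioo, mem_Ioc]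
    omega
  have hIc : (I n).card = Y := by rw [hIe, Nat.card_Ioc]; omega
  have hf1 : (((2 * n : ℕ) : ℤ) : ℝ) = 2 * n := by push_cast; ring
  have hN0 : (1 : ℝ) < ((2 * n : ℕ) : ℝ) := by push_cast; linarith
  obtain ⟨g1, g2⟩ := hN1 (2 * n) h1 (-1) ((2 * n : ℕ) : ℤ) (Or.inr rfl) (by
      rw [Int.even_coe_nat]
      exact ⟨n, by ring⟩) (by
      rw [Int.cast_natCast, abs_of_nonneg (Nat.cast_nonneg _)]
      calc ((2 * n : ℕ) : ℝ) ^ (1 / 2 : ℝ) < ((2 * n : ℕ) : ℝ) ^ (1 : ℝ) :=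
            Real.rpow_lt_rpow_of_exponent_lt hN0 (by norm_num)
        _ = _ := Real.rpow_one _) (by
      rw [Int.cast_natCast, abs_of_nonneg (Nat.cast_nonneg _), Real.rpow_one])
  rw [V_eq] at g1
  obtain ⟨g3, g4⟩ := g2 X (by
      have e1 : ((2 * n : ℕ) : ℝ) ^ (1 / 3 : ℝ) ≤ ((2 * n : ℕ) : ℝ) ^ (1 / 2 : ℝ) :=
        Real.rpow_le_rpow_of_exponent_le hN0.le (by norm_num)
      have e2 : ((2 * n : ℕ) : ℝ) ^ (1 / 2 : ℝ) = s := by
        rw [hs, Real.sqrt_eq_rpow]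
        push_cast
        rfl
      rw [e2] at e1
      linarith) u Y (by
      linarith) (by omega)
  have hP : Sgn.P (-1) ((2 * n : ℕ) : ℤ) (2 * n) r u Y = P n r := by
    unfold Sgn.P P
    rw [hIe]
    simp only [good_eq]
  have hW : ∀ T m, Sgn.Next (-1) ((2 * n : ℕ) : ℤ) (2 * n) r T m = Next n r T m := by
    intro T m
    unfold Sgn.Next Next
    simp only [good_eq]
  have hU : Pool.Agent.V11237.LP.U (2 * n) r = U n r := rfl
  rw [hP, V_eq, hU] at g3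
  refine ⟨hI, ?_, g1, ?_, ?_⟩
  · intro m hm hg
    apply hN2 (2 * n) h2 (2 * n - m) (by omega)
    intro p hp hpz hd
    apply (hg p hp hpz).2
    have : ((2 * n - m : ℕ) : ℤ) = 2 * n - m := by
      push_cast [Nat.cast_sub hm]
      ring
    rw [← this]
    exact_mod_cast hd
  · rw [← hs, ← hX, hIc]
    exact g3
  · intro T hT S
    have g5 := g4 T (by rw [V_eq]; exact hT) S
    rw [hP, V_eq] at g5
    simp only [hW] at g5
    exact g5

end Pool.Agent.Results.MP_b58c63_nt.LawInTheInterval
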